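import Pool.Agent.Y129.TA.Defs

/-!
# The approximation lemma
-/

open MvPolynomial WittVector

set_option linter.unusedSectionVars false

namespace Pool.Agent.Y129.TA

variable {p : ℕ} [hp : Fact p.Prime]

section Step

variable {R S : Type} [CommRing R] [CommRing S]

/-- `y` is obtained from `x = [x_0] + p x'` by replacing `p` by `[ϖ]`. -/
def Step (ϖ : R) (x y : WittVector p R) : Prop :=
  ∃ x' : WittVector p R, x = teichmuller p (x.coeff 0) + p * x' ∧
    y = teichmuller p (x.coeff 0) + teichmuller p ϖ * x'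

theorem Step.map {ϖ : R} {x y : WittVector p R} (h : Step ϖ x y) (f : R →+* S) :
    Step (f ϖ) (WittVector.map f x) (WittVector.map f y) := by
  obtain ⟨x', h1, h2⟩ := h
  refine ⟨WittVector.map f x', ?_, ?_⟩
  · conv_lhs => rw [h1]
    rw [map_add, map_mul, map_natCast, map_teichmuller, map_coeff]
  · rw [h2, map_add, map_mul, map_teichmuller, map_teichmuller, map_coeff]

theorem decomp [CharP R p] [PerfectRing R p] (x : WittVector p R) :
    ∃ x', x = teichmuller p (x.coeff 0) + p * x' := by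
  have h := dvd_sub_sum_teichmuller_iterateFrobeniusEquiv_coeff x 0
  have e : (Finset.Iic 0 : Finset ℕ) = {0} := by ext; simp
  rw [e, Finset.sum_singleton, zero_add, pow_one, pow_zero, pow_zero, mul_one] at h
  obtain ⟨x', hx'⟩ := h
  refine ⟨x', ?_⟩
  rw [← hx']
  change x = teichmuller p (x.coeff 0) + (x - teichmuller p (x.coeff 0))
  ring

theorem Step.exists [CharP R p] [PerfectRing R p] (ϖ : R) (x : WittVector p R) :
    ∃ y, Step ϖ x y := by
  obtain ⟨x', hx'⟩ := decomp x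
  exact ⟨_, x', hx', rfl⟩

variable [CharP R p] [IsDomain R]

theorem Step.unique {ϖ : R} {x y y' : WittVector p R} (h : Step ϖ x y) (h' : Step ϖ x y') :
    y = y' := by
  obtain ⟨x₁, h1, h2⟩ := h
  obtain ⟨x₂, h3, h4⟩ := h'
  have h5 : (p : WittVector p R) * x₁ = p * x₂ := by
    have := h1.symm.trans h3
    exact add_left_cancel this
  have h6 := mul_left_cancel₀ (p_nonzero p R) h5
  rw [h2, h4, h6]

theorem Step.mul {ϖ : R} {x y : WittVector p R} (h : Step ϖ x y) (a : R) :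
    Step ϖ (teichmuller p a * x) (teichmuller p a * y) := by
  obtain ⟨x', h1, h2⟩ := h
  have hc : (teichmuller p a * x).coeff 0 = a * x.coeff 0 := by
    rw [mul_coeff_zero, teichmuller_coeff_zero]
  refine ⟨teichmuller p a * x', ?_, ?_⟩
  · rw [hc, map_mul]
    conv_lhs => rw [h1]
    ring
  · rw [hc, map_mul, h2]
    ring

end Step

variable {K F : Type} [Field K] [Field F] [CharP F p] (T : Tilting p K F)

theorem TiltPair.mem_O {T : TiltPair p K F} {x : F} : x ∈ T.O ↔ T.absF x ≤ 1 := Iff.rfl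

instance (T : TiltPair p K F) : CharP T.O p := CharP.subring F p T.O

theorem TiltPair.sharp_zero (T : TiltPair p K F) : T.sharp 0 = 0 := by
  have h := T.abs_sharp 0
  rw [AbsoluteValue.map_zero] at h
  exact T.absK.eq_zero.1 h

theorem TiltPair.sharp_ne (T : TiltPair p K F) {x : F} (hx : x ≠ 0) : T.sharp x ≠ 0 := by
  intro h0
  have h := T.abs_sharp x
  rw [h0, AbsoluteValue.map_zero] at h
  exact hx (T.absF.eq_zero.1 h.symm)

theorem frob_surj [IsAlgClosed F] (T : TiltPair p K F) (x : T.O) : ∃ y : T.O, y ^ p = x := by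
  obtain ⟨y, hy⟩ := IsAlgClosed.exists_pow_nat_eq (x : F) hp.out.pos
  have h1 : T.absF y ≤ 1 := by
    by_contra h
    push Not at h
    have h2 : 1 < T.absF y ^ p := one_lt_pow₀ h hp.out.ne_zero
    rw [← map_pow, hy] at h2
    exact absurd x.2 (not_le.2 h2)
  exact ⟨⟨y, h1⟩, Subtype.ext hy⟩

instance perfectO [IsAlgClosed F] (T : TiltPair p K F) : PerfectRing T.O p :=
  PerfectRing.ofSurjective T.O p fun x => by
    obtain ⟨y, hy⟩ := frob_surj T x
    exact ⟨y, hy⟩

namespace Tilting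

variable {T} {ϖ : T.O} (hϖ : T.sharp ϖ = p)

section

include hϖ

theorem θ_step {x y : WittVector p T.O} (h : Step ϖ x y) : T.θ y = T.θ x := by
  obtain ⟨x', h1, h2⟩ := h
  rw [h2]
  conv_rhs => rw [h1]
  rw [map_add, map_add, map_mul, map_mul, map_natCast, T.θ_teich ϖ, hϖ]

theorem ϖ_ne : ϖ ≠ 0 := by
  intro h
  rw [h] at hϖ
  exact T.p_ne (hϖ.symm.trans T.sharp_zero)

theorem abs_ϖ : T.absF ϖ = T.absK p := by rw [← T.abs_sharp, hϖ]

end

theorem abs_sub_le (T : Tilting p K F) [IsAlgClosed F] (z : WittVector p T.O) :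
    T.absK (T.θ z - T.sharp (z.coeff 0)) ≤ T.absK p := by
  obtain ⟨z', hz⟩ := decomp z
  have e : T.θ z = T.sharp (z.coeff 0) + p * T.θ z' := by
    conv_lhs => rw [hz]
    rw [map_add, T.θ_teich, map_mul, map_natCast]
  have h : T.θ z - T.sharp (z.coeff 0) = p * T.θ z' := by
    rw [e]
    ring
  rw [h, map_mul]
  exact mul_le_of_le_one_right (T.absK.nonneg _) (T.θ_le z')

theorem abs_coeff_le (T : Tilting p K F) [IsAlgClosed F] (z : WittVector p T.O) :
    T.absF (z.coeff 0) ≤ max (T.absK (T.θ z)) (T.absK p) := by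
  rw [← T.abs_sharp]
  have h : T.sharp (z.coeff 0 : F) = T.θ z + -(T.θ z - T.sharp (z.coeff 0)) := by ring
  rw [h]
  refine (T.ultraK _ _).trans (max_le_max le_rfl ?_)
  rw [AbsoluteValue.map_neg]
  exact abs_sub_le T z

theorem abs_θ_le (T : Tilting p K F) [IsAlgClosed F] (z : WittVector p T.O) :
    T.absK (T.θ z) ≤ max (T.absF (z.coeff 0)) (T.absK p) := by
  rw [← T.abs_sharp]
  have h : T.θ z = T.sharp (z.coeff 0 : F) + (T.θ z - T.sharp (z.coeff 0)) := by ring
  rw [h]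
  refine (T.ultraK _ _).trans (max_le_max le_rfl ?_)
  exact abs_sub_le T z

/-- One step of the approximation. -/
theorem step_gain [IsAlgClosed F] (hϖ : T.sharp ϖ = p) {β γ : T.O} (hβ : β ≠ 0)
    {x y z : WittVector p T.O} (hx : x = teichmuller p β * z) (h1 : T.absK (T.θ x) ≤ T.absF γ)
    (h2 : T.absF γ ≤ T.absF β) (h3 : T.absF ϖ * T.absF β ≤ T.absF γ) (hs : Step ϖ x y) :
    ∃ z', y = teichmuller p γ * z' := by
  have hβ0 : (β : F) ≠ 0 := fun h => hβ (Subtype.ext h)
  have hβp : 0 < T.absF β := T.absF.pos hβ0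
  have hϖp : 0 < T.absF ϖ := T.absF.pos fun h => ϖ_ne hϖ (Subtype.ext h)
  have hγp : 0 < T.absF γ := (mul_pos hϖp hβp).trans_le h3
  have hγ0 : (γ : F) ≠ 0 := fun h => by rw [h, map_zero] at hγp; exact lt_irrefl _ hγp
  -- `γ = β δ`
  have hδ : T.absF ((γ : F) / β) ≤ 1 := by rw [map_div₀]; exact div_le_one_of_le₀ h2 hβp.le
  let δ : T.O := ⟨(γ : F) / β, hδ⟩
  have hβδ : γ = β * δ := Subtype.ext (mul_div_cancel₀ _ hβ0).symm
  have hδ0 : (δ : F) ≠ 0 := div_ne_zero hγ0 hβ0
  have hδp : 0 < T.absF δ := T.absF.pos hδ0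
  have hγδ : T.absF γ = T.absF β * T.absF δ := by rw [hβδ, Subring.coe_mul, map_mul]
  -- the first coefficient of `z`
  have hz : T.absK (T.θ z) ≤ T.absF δ := by
    rw [hx, map_mul, T.θ_teich, map_mul, T.abs_sharp, hγδ] at h1
    exact le_of_mul_le_mul_left h1 hβp
  have hpδ : T.absK p ≤ T.absF δ := by
    rw [← abs_ϖ hϖ]
    rw [hγδ, mul_comm (T.absF β)] at h3
    exact le_of_mul_le_mul_right h3 hβp
  have hz0 : T.absF (z.coeff 0) ≤ T.absF δ := (abs_coeff_le T z).trans (max_le hz hpδ)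
  have hu : T.absF ((z.coeff 0 : F) / δ) ≤ 1 := by
    rw [map_div₀]; exact div_le_one_of_le₀ hz0 hδp.le
  let u : T.O := ⟨(z.coeff 0 : F) / δ, hu⟩
  have hδu : z.coeff 0 = δ * u := Subtype.ext (mul_div_cancel₀ _ hδ0).symm
  have hw : T.absF ((ϖ : F) / δ) ≤ 1 := by
    rw [map_div₀]
    refine div_le_one_of_le₀ ?_ hδp.le
    rw [abs_ϖ hϖ]
    exact hpδ
  let w : T.O := ⟨(ϖ : F) / δ, hw⟩
  have hδw : ϖ = δ * w := Subtype.ext (mul_div_cancel₀ _ hδ0).symm
  obtain ⟨z', hz'⟩ := decomp z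
  have hs' : Step ϖ z (teichmuller p (z.coeff 0) + teichmuller p ϖ * z') := ⟨z', hz', rfl⟩
  have hs2 := hs'.mul β
  rw [← hx] at hs2
  have e1 : teichmuller p ϖ = teichmuller p δ * teichmuller p w := by rw [← map_mul, ← hδw]
  have e2 : teichmuller p (z.coeff 0) = teichmuller p δ * teichmuller p u := by
    rw [← map_mul, ← hδu]
  have e3 : teichmuller p γ = teichmuller p β * teichmuller p δ := by rw [← map_mul, ← hβδ]
  refine ⟨teichmuller p u + teichmuller p w * z', ?_⟩
  rw [hs.unique hs2, e1, e2, e3]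
  ring

/-- After `c` steps the first coefficient is not zero, if `|θ(x)| > |p| ^ c`. -/
theorem chain_ne [IsAlgClosed F] (hϖ : T.sharp ϖ = p) {Y : ℕ → WittVector p T.O}
    (hY : ∀ j, Step ϖ (Y j) (Y (j + 1))) {c : ℕ} (hc : T.absK p ^ c < T.absK (T.θ (Y 0))) :
    (Y c).coeff 0 ≠ 0 := by
  have hθ : ∀ j, T.θ (Y j) = T.θ (Y 0) := by
    intro j
    induction j with
    | zero => rfl
    | succ j ih => rw [θ_step hϖ (hY j), ih]
  obtain ⟨η, hη⟩ := T.surj (T.θ (Y 0))
  have hηa : T.absF η = T.absK (T.θ (Y 0)) := by rw [← T.abs_sharp, hη]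
  have hη1 : T.absF η ≤ 1 := by rw [hηa]; exact T.θ_le _
  let η' : T.O := ⟨η, hη1⟩
  have hpp : 0 < T.absK p := T.absK.pos T.p_ne
  have hη0 : 0 < T.absF η := by rw [hηa]; exact (pow_pos hpp c).trans hc
  have key : ∀ j, ∃ β : T.O, T.absF β = max (T.absF η) (T.absK p ^ j) ∧
      ∃ z, Y j = teichmuller p β * z := by
    intro j
    induction j with
    | zero =>
      refine ⟨1, ?_, Y 0, ?_⟩
      · rw [pow_zero, max_eq_right hη1, Subring.coe_one, map_one]
      · rw [map_one, one_mul]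
    | succ j ih =>
      obtain ⟨β, hβ, z, hz⟩ := ih
      have hβp : 0 < T.absF β := by rw [hβ]; exact hη0.trans_le (le_max_left _ _)
      have hβ0 : β ≠ 0 := fun h => by rw [h, Subring.coe_zero, map_zero] at hβp; exact lt_irrefl _ hβp
      have hγ : ∃ γ : T.O, T.absF γ = max (T.absF η) (T.absK p ^ (j + 1)) := by
        rcases le_total (T.absF η) (T.absK p ^ (j + 1)) with h | h
        · refine ⟨ϖ ^ (j + 1), ?_⟩
          rw [max_eq_right h, Subring.coe_pow, map_pow, abs_ϖ hϖ]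
        · exact ⟨η', (max_eq_left h).symm⟩
      obtain ⟨γ, hγ⟩ := hγ
      refine ⟨γ, hγ, step_gain hϖ hβ0 hz ?_ ?_ ?_ (hY j)⟩
      · rw [hθ j, ← hηa, hγ]
        exact le_max_left _ _
      · rw [hγ, hβ]
        refine max_le_max le_rfl ?_
        exact pow_le_pow_of_le_one hpp.le T.p_lt.le (Nat.le_succ j)
      · rw [hβ, hγ, abs_ϖ hϖ, mul_max_of_nonneg _ _ hpp.le]
        refine max_le_max ?_ ?_
        · exact mul_le_of_le_one_left hη0.le T.p_lt.le
        · rw [pow_succ, mul_comm]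
  obtain ⟨β, hβ, z, hz⟩ := key c
  have hβη : T.absF β = T.absF η := by
    rw [hβ, max_eq_left]
    rw [hηa]
    exact hc.le
  have h1 : T.absK (T.θ z) = 1 := by
    have h2 := hθ c
    rw [hz, map_mul, T.θ_teich] at h2
    have h3 := congrArg T.absK h2
    rw [map_mul, T.abs_sharp, hβη, hηa] at h3
    have h4 : T.absK (T.θ (Y 0)) ≠ 0 := by rw [← hηa]; exact hη0.ne'
    exact mul_left_cancel₀ h4 (h3.trans (mul_one _).symm)
  have h2 : z.coeff 0 ≠ 0 := by
    intro h0
    have h3 := abs_θ_le T z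
    rw [h1, h0, Subring.coe_zero, map_zero] at h3
    exact absurd h3 (not_le.2 (max_lt zero_lt_one T.p_lt))
  rw [hz, mul_coeff_zero, teichmuller_coeff_zero]
  refine mul_ne_zero ?_ h2
  intro h0
  rw [h0, Subring.coe_zero, map_zero] at hβη
  exact hη0.ne hβη

end Tilting

end Pool.Agent.Y129.TA
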