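import Pool.Agent.Y129.TA.Main

/-!
# Approximation of images of complete intersections: the theorem
-/

open MvPolynomial

set_option linter.unusedSectionVars false

namespace Pool.Agent.Y129.TA

variable {p : ℕ} [hp : Fact p.Prime] {K F : Type} [Field K] [Field F] [CharP F p]
  {α ι κ : Type} [Fintype α] [Fintype ι] [Fintype κ]

/-- A nonzero vector can be normalised. -/
theorem exists_normal (T : TiltPair p K F) {τ : Type} [Fintype τ] {w : τ → F} (hw : w ≠ 0) :
    ∃ a : F, a ≠ 0 ∧ (∀ t, T.absF (a * w t) ≤ 1) ∧ ∃ t, T.absF (a * w t) = 1 := by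
  have hne : Nonempty τ := by
    by_contra h
    rw [not_nonempty_iff] at h
    exact hw (funext fun t => h.elim t)
  obtain ⟨t, ht⟩ := Finite.exists_max fun t => T.absF (w t)
  have hwt : w t ≠ 0 := by
    intro h
    refine hw (funext fun s => ?_)
    have h1 := ht s
    rw [h, map_zero] at h1
    exact T.absF.eq_zero.1 (le_antisymm h1 (T.absF.nonneg _))
  have hp : 0 < T.absF (w t) := T.absF.pos hwt
  refine ⟨(w t)⁻¹, inv_ne_zero hwt, fun s => ?_, t, ?_⟩
  · rw [map_mul, map_inv₀, inv_mul_le_iff₀ hp, mul_one]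
    exact ht s
  · rw [inv_mul_cancel₀ hwt, map_one]

variable {h : κ → MvPolynomial α K} {f : ι → MvPolynomial α K} {e : ℕ}

theorem approximable [IsAlgClosed K] [IsAlgClosed F] (T : Tilting p K F)
    (hh : ∀ k, IsForm (h k)) (hf : ∀ i, (f i).IsHomogeneous e) (he : 0 < e)
    (h0 : ∀ z : α → K, (∀ k, eval z (h k) = 0) → (∀ i, eval z (f i) = 0) → z = 0)
    [Nonempty ι] {d : ℕ} (hd : Fintype.card κ + d < Fintype.card α)
    (hX : DimLE (imageOf h f) d) : T.Approximable (imageOf h f) d := by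
  classical
  intro r P DP hPD hPX ε hε
  obtain ⟨q, hq, hq0⟩ := hX
  -- (i): the coordinates `y` are not all small
  have s1 : ∀ t : α ⊕ ι, ∃ δ : ℝ, 0 < δ ∧ ∀ v : α ⊕ ι → K, (∀ i, T.absK (v i) ≤ 1) →
      (∀ k, T.absK (eval v (Sum.elim (system h f e) (fun i => X (Sum.inr i) ^ e) k)) ≤ δ) →
      T.absK (eval v (X t)) ≤ 1 / 2 := by
    intro t
    refine small T.ultraK _ _ (fun v hv => ?_) (by norm_num)
    have h1 := system_eq_zero he h0 (fun k => hv (Sum.inl k)) (fun i => by
      have h2 := hv (Sum.inr i)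
      simpa using h2)
    rw [eval_X, h1]
    rfl
  choose δ₁ hδ₁ hs1 using s1
  obtain ⟨δa, hδa, hδa'⟩ := exists_pos_le δ₁ hδ₁
  -- (iii): the forms `q j`
  have s2 : ∀ t : α ⊕ ι, ∃ δ : ℝ, 0 < δ ∧ ∀ v : α ⊕ ι → K, (∀ i, T.absK (v i) ≤ 1) →
      (∀ k, T.absK (eval v (Sum.elim (system h f e) (fun j => pull α e (q j)) k)) ≤ δ) →
      T.absK (eval v (X t)) ≤ 1 / 2 := by
    intro t
    refine small T.ultraK _ _ (fun v hv => ?_) (by norm_num)
    have h1 : (fun i => v (Sum.inr i) ^ e) = 0 := by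
      refine hq0 _ (mem_imageOf_of_system fun k => hv (Sum.inl k)) fun j => ?_
      have h2 := hv (Sum.inr j)
      rw [Sum.elim_inr, eval_pull] at h2
      exact h2
    have h2 := system_eq_zero he h0 (fun k => hv (Sum.inl k)) (fun i => congrFun h1 i)
    rw [eval_X, h2]
    rfl
  choose δ₂ hδ₂ hs2 using s2
  obtain ⟨δb, hδb, hδb'⟩ := exists_pos_le δ₂ hδ₂
  -- (ii): the polynomials `P k`
  set c : ℝ := min δa 1 with hc
  have hc0 : 0 < c := lt_min hδa one_pos
  have s3 : ∀ k : Fin r, ∃ δ : ℝ, 0 < δ ∧ ∀ v : α ⊕ ι → K, (∀ i, T.absK (v i) ≤ 1) →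
      (∀ l, T.absK (eval v (system h f e l)) ≤ δ) →
      T.absK (eval v (pull α e (P k))) ≤ ε * c ^ DP k := by
    intro k
    refine small T.ultraK _ _ (fun v hv => ?_) (by positivity)
    rw [eval_pull]
    exact hPX k _ (mem_imageOf_of_system hv)
  choose δ₃ hδ₃ hs3 using s3
  obtain ⟨δc, hδc, hδc'⟩ := exists_pos_le δ₃ hδ₃
  set δ : ℝ := min δa (min δb δc) with hδ
  have hδ0 : 0 < δ := lt_min hδa (lt_min hδb hδc)
  -- the approximations
  have a1 : ∀ k : κ ⊕ ι, ∃ D, 0 < D ∧ ∃ g : MvPolynomial (α ⊕ ι) F, g.IsHomogeneous D ∧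
      ∀ t : α ⊕ ι → F, (∀ i, T.absF (t i) ≤ 1) → eval t g = 0 →
        T.absK (eval (fun i => T.sharp (t i)) (system h f e k)) ≤ δ := by
    intro k
    obtain ⟨D, hD, hD'⟩ := system_form hh hf he k
    exact approx T hD hD' hδ0
  choose DG hDG G hG hGa using a1
  have a2 : ∀ j : Fin (d + 1), ∃ D, 0 < D ∧ ∃ g : MvPolynomial ι F, g.IsHomogeneous D ∧
      ∀ t : ι → F, (∀ i, T.absF (t i) ≤ 1) → eval t g = 0 →
        T.absK (eval (fun i => T.sharp (t i)) (q j)) ≤ δb := by
    intro j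
    obtain ⟨D, hD, hD'⟩ := hq j
    exact approx T hD hD' hδb
  choose Dg hDg g hg hga using a2
  let u : ι → MvPolynomial (α ⊕ ι) F := fun i => X (Sum.inr i) ^ e
  have hu : ∀ i, (u i).IsHomogeneous e := fun i => isHomogeneous_X_pow _ _
  have hGf : ∀ k, IsForm (G k) := fun k => ⟨DG k, hDG k, hG k⟩
  have hue : ∀ (w : α ⊕ ι → F) i, eval w (u i) = w (Sum.inr i) ^ e := fun w i => by
    change eval w (X (Sum.inr i) ^ e) = _
    rw [map_pow, eval_X]
  -- the main estimate for a normalised zero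
  have key : ∀ w : α ⊕ ι → F, (∀ k, eval w (G k) = 0) → w ≠ 0 → ∃ a : F, a ≠ 0 ∧
      (∀ k, T.absK (eval (fun t => T.sharp (a * w t)) (system h f e k)) ≤ δ) ∧
      (∀ t, T.absF (a * w t) ≤ 1) ∧ (∃ t, T.absF (a * w t) = 1) ∧
      ∃ i, c < T.absF (a ^ e * w (Sum.inr i) ^ e) := by
    intro w hw hw0
    obtain ⟨a, ha, h1, t, ht⟩ := exists_normal T.toTiltPair hw0
    have h2 : ∀ k, T.absK (eval (fun t => T.sharp (a * w t)) (system h f e k)) ≤ δ := by
      intro k
      refine hGa k (fun t => a * w t) h1 ?_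
      rw [eval_smul_of_homogeneous (hG k), hw k, mul_zero]
    refine ⟨a, ha, h2, h1, ⟨t, ht⟩, ?_⟩
    by_contra hno
    push Not at hno
    have h3 := hs1 t (fun t => T.sharp (a * w t)) (fun i => by rw [T.abs_sharp]; exact h1 i) (by
      rintro (k | i)
      · exact (h2 k).trans ((min_le_left _ _).trans (hδa' t))
      · rw [Sum.elim_inr, map_pow, eval_X, ← map_pow, T.abs_sharp, mul_pow]
        exact (hno i).trans ((min_le_left _ _).trans (hδa' t)))
    rw [eval_X, T.abs_sharp, ht] at h3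
    norm_num at h3
  have hG0 : ∀ w : α ⊕ ι → F, (∀ k, eval w (G k) = 0) → (∀ i, eval w (u i) = 0) → w = 0 := by
    intro w hw hy
    by_contra hw0
    obtain ⟨a, _, _, _, _, i, hi⟩ := key w hw hw0
    have h1 := hy i
    rw [hue] at h1
    rw [h1, mul_zero, map_zero] at hi
    exact absurd hi (not_lt.2 hc0.le)
  refine ⟨imageOf G u, imageOf_closedCone hGf hu he hG0, imageOf_dimGE hGf hu he hG0 ?_, ?_, ?_⟩
  · rw [Fintype.card_sum, Fintype.card_sum]
    omega
  · -- the upper bound for the dimension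
    refine ⟨g, fun j => ⟨Dg j, hDg j, hg j⟩, ?_⟩
    rintro y ⟨w, hw, hy⟩ hgy
    by_contra hy0
    have hw0 : w ≠ 0 := by
      rintro rfl
      refine hy0 (funext fun i => ?_)
      rw [hy i, hue]
      exact zero_pow he.ne'
    obtain ⟨a, ha, h2, h1, ⟨t, ht⟩, _⟩ := key w hw hw0
    have hyi : ∀ i, a ^ e * y i = (a * w (Sum.inr i)) ^ e := fun i => by rw [hy i, hue, mul_pow]
    have h4 : ∀ j, T.absK (eval (fun i => T.sharp (a ^ e * y i)) (q j)) ≤ δb := by
      intro j
      refine hga j (fun i => a ^ e * y i) (fun i => ?_) ?_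
      · rw [hyi, map_pow]
        exact pow_le_one₀ (T.absF.nonneg _) (h1 _)
      · rw [eval_smul_of_homogeneous (hg j), hgy j, mul_zero]
    have h3 := hs2 t (fun t => T.sharp (a * w t)) (fun i => by rw [T.abs_sharp]; exact h1 i) (by
      rintro (k | j)
      · exact (h2 k).trans ((min_le_right _ _).trans ((min_le_left _ _).trans (hδb' t)))
      · rw [Sum.elim_inr, eval_pull]
        have h5 : (fun i => T.sharp (a * w (Sum.inr i)) ^ e) =
            fun i => T.sharp (a ^ e * y i) := funext fun i => by rw [hyi, map_pow]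
        rw [h5]
        exact (h4 j).trans (hδb' t))
    rw [eval_X, T.abs_sharp, ht] at h3
    norm_num at h3
  · -- the tube
    rintro y ⟨w, hw, hy⟩ k B hB
    by_cases hw0 : w = 0
    · have hy0 : y = 0 := by
        funext i
        rw [hy i, hue, hw0]
        exact zero_pow he.ne'
      have h1 : (fun i => T.sharp (y i)) = (0 : ι → K) := by
        funext i
        rw [hy0]
        exact T.sharp_zero
      have h2 : eval (0 : ι → K) (P k) = 0 := by
        refine hPX k 0 ⟨0, fun j => form_zero (hh j), fun i => ?_⟩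
        exact (form_zero ⟨e, he, hf i⟩).symm
      have hB0 : 0 ≤ B := (T.absF.nonneg _).trans (hB (Classical.arbitrary ι))
      rw [h1, h2, map_zero]
      positivity
    · obtain ⟨a, ha, h2, h1, _, i, hi⟩ := key w hw hw0
      have hyi : ∀ i, a ^ e * y i = (a * w (Sum.inr i)) ^ e := fun i => by rw [hy i, hue, mul_pow]
      have h3 := hs3 k (fun t => T.sharp (a * w t)) (fun i => by rw [T.abs_sharp]; exact h1 i)
        (fun l => (h2 l).trans ((min_le_right _ _).trans ((min_le_right _ _).trans (hδc' k))))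
      rw [eval_pull] at h3
      have h5 : (fun i => T.sharp (a * w (Sum.inr i)) ^ e) =
          fun i => T.sharp (a ^ e) * T.sharp (y i) :=
        funext fun i => by rw [← map_pow, ← hyi, map_mul]
      rw [h5, eval_smul_of_homogeneous (hPD k), map_mul, map_pow, T.abs_sharp] at h3
      have hA : 0 < T.absF (a ^ e) := T.absF.pos (pow_ne_zero e ha)
      have h6 : c ≤ T.absF (a ^ e) * B := by
        refine hi.le.trans ?_
        rw [map_mul, ← hue, ← hy i]
        exact mul_le_mul_of_nonneg_left (hB i) hA.le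
      have h7 : T.absF (a ^ e) ^ DP k * T.absK (eval (fun i => T.sharp (y i)) (P k)) ≤
          T.absF (a ^ e) ^ DP k * (ε * B ^ DP k) := by
        refine h3.trans ?_
        calc ε * c ^ DP k ≤ ε * (T.absF (a ^ e) * B) ^ DP k :=
              mul_le_mul_of_nonneg_left (pow_le_pow_left₀ hc0.le h6 _) hε.le
          _ = T.absF (a ^ e) ^ DP k * (ε * B ^ DP k) := by rw [mul_pow]; ring
      exact le_of_mul_le_mul_left h7 (pow_pos hA _)

end Pool.Agent.Y129.TA
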